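import Mathlib

/-!
The pointwise `L`-functional of the pair `(L^β, L^α)`:
`phi t l = inf_{0 ≤ u ≤ 1} ((u l)^β + t ((1-u) l)^α)`,
its homogeneity and the integral identity
`∫_0^∞ phi t l · t^{-η-1} dt = c · l^γ` for `γ = β + η (α - β)`, `0 < η < 1`.
-/

open MeasureTheory Set
open scoped ENNReal NNReal

namespace Pool.Agent.J6H40.LipInterp

/-- Cost of splitting the value `l` as `u l + (1-u) l`. -/
noncomputable def cost (β α t l u : ℝ) : ℝ≥0∞ :=
  ENNReal.ofReal ((u * l) ^ β) + ENNReal.ofReal (t * ((1 - u) * l) ^ α)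

/-- A dense sequence in `[0,1]`. -/
noncomputable def qs (n : ℕ) : ℝ := (TopologicalSpace.denseSeq (Set.Icc (0:ℝ) 1) n : ℝ)

lemma qs_mem (n : ℕ) : qs n ∈ Set.Icc (0:ℝ) 1 :=
  (TopologicalSpace.denseSeq (Set.Icc (0:ℝ) 1) n).2

/-- The pointwise `L`-functional. -/
noncomputable def phi (β α t l : ℝ) : ℝ≥0∞ := ⨅ n : ℕ, cost β α t l (qs n)

lemma continuous_cost {β α : ℝ} (hβ : 0 < β) (hα : 0 < α) (t l : ℝ) :
    Continuous fun u : ℝ => cost β α t l u := by
  have h1 : Continuous fun u : ℝ => ENNReal.ofReal ((u * l) ^ β) :=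
    ENNReal.continuous_ofReal.comp
      ((continuous_id.mul continuous_const).rpow_const (fun _ => Or.inr hβ.le))
  have h2 : Continuous fun u : ℝ => ENNReal.ofReal (t * ((1 - u) * l) ^ α) :=
    ENNReal.continuous_ofReal.comp (continuous_const.mul
      (((continuous_const.sub continuous_id).mul continuous_const).rpow_const
      (fun _ => Or.inr hα.le)))
  exact h1.add h2

lemma phi_le_cost {β α : ℝ} (hβ : 0 < β) (hα : 0 < α) (t l : ℝ) {u : ℝ} (hu : u ∈ Set.Icc (0:ℝ) 1) :
    phi β α t l ≤ cost β α t l u := by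
  have hd : DenseRange (TopologicalSpace.denseSeq (Set.Icc (0:ℝ) 1)) :=
    TopologicalSpace.denseRange_denseSeq _
  have hcont : Continuous fun v : Set.Icc (0:ℝ) 1 => cost β α t l (v : ℝ) :=
    (continuous_cost hβ hα t l).comp continuous_subtype_val
  have := hd.induction_on (p := fun v : Set.Icc (0:ℝ) 1 => phi β α t l ≤ cost β α t l (v : ℝ))
    ⟨u, hu⟩ (isClosed_Ici.preimage hcont) (fun n => iInf_le _ n)
  exact this

lemma phi_zero {β α : ℝ} (hβ : 0 < β) (hα : 0 < α) (t : ℝ) : phi β α t 0 = 0 := by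
  refine le_antisymm ?_ zero_le
  refine (phi_le_cost hβ hα t 0 (u := 0) (by simp)).trans ?_
  simp [cost, Real.zero_rpow hβ.ne', Real.zero_rpow hα.ne']

lemma phi_le_of_add {β α : ℝ} (hβ : 0 < β) (hα : 0 < α) {t l a b : ℝ} (ht : 0 ≤ t) (hl : 0 ≤ l)
    (ha : 0 ≤ a) (hb : 0 ≤ b) (hab : l ≤ a + b) :
    phi β α t l ≤ ENNReal.ofReal (a ^ β) + ENNReal.ofReal (t * b ^ α) := by
  rcases hl.eq_or_lt with h0 | h0
  · rw [← h0, phi_zero hβ hα]; exact zero_le
  · rcases le_total l a with hla | hla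
    · refine (phi_le_cost hβ hα t l (u := 1) (by simp)).trans ?_
      unfold cost
      refine add_le_add (ENNReal.ofReal_le_ofReal ?_) (ENNReal.ofReal_le_ofReal ?_)
      · rw [one_mul]; exact Real.rpow_le_rpow hl hla hβ.le
      · rw [sub_self, zero_mul, Real.zero_rpow hα.ne', mul_zero]; positivity
    · refine (phi_le_cost hβ hα t l (u := a / l) ⟨by positivity, by
        rw [div_le_one h0]; exact hla⟩).trans ?_
      unfold cost
      have e : (1 - a / l) * l = l - a := by field_simp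
      rw [div_mul_cancel₀ _ h0.ne', e]
      refine add_le_add le_rfl (ENNReal.ofReal_le_ofReal ?_)
      gcongr
      linarith

lemma cost_scale {β α : ℝ} {t l u : ℝ} (_ht : 0 ≤ t) (hl : 0 < l) (hu : u ∈ Set.Icc (0:ℝ) 1) :
    cost β α t l u = ENNReal.ofReal (l ^ β) * cost β α (t * l ^ (α - β)) 1 u := by
  unfold cost
  rw [mul_add, ← ENNReal.ofReal_mul (by positivity), ← ENNReal.ofReal_mul (by positivity)]
  have h1 : (0:ℝ) ≤ 1 - u := by linarith [hu.2]
  congr 2
  · rw [Real.mul_rpow hu.1 hl.le, mul_one]; ring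
  · rw [Real.mul_rpow h1 hl.le, mul_one]
    have : l ^ α = l ^ β * l ^ (α - β) := by rw [← Real.rpow_add hl]; congr 1; ring
    rw [this]; ring

lemma phi_scale {β α : ℝ} {t l : ℝ} (ht : 0 ≤ t) (hl : 0 < l) :
    phi β α t l = ENNReal.ofReal (l ^ β) * phi β α (t * l ^ (α - β)) 1 := by
  unfold phi
  rw [ENNReal.mul_iInf_of_ne (by simpa using Real.rpow_pos_of_pos hl β) ENNReal.ofReal_ne_top]
  exact iInf_congr fun n => cost_scale ht hl (qs_mem n)

lemma measurable_phi (β α : ℝ) : Measurable fun p : ℝ × ℝ => phi β α p.1 p.2 := by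
  unfold phi
  refine Measurable.iInf fun n => ?_
  have h1 : Measurable fun p : ℝ × ℝ => ENNReal.ofReal ((qs n * p.2) ^ β) :=
    ((measurable_snd.const_mul (qs n)).pow_const β).ennreal_ofReal
  have h2 : Measurable fun p : ℝ × ℝ => ENNReal.ofReal (p.1 * ((1 - qs n) * p.2) ^ α) :=
    (measurable_fst.mul ((measurable_snd.const_mul (1 - qs n)).pow_const α)).ennreal_ofReal
  exact h1.add h2

lemma measurable_integrand (β α η : ℝ) :
    Measurable fun s : ℝ => phi β α s 1 * ENNReal.ofReal (s ^ (-η - 1)) := by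
  have h1 : Measurable fun s : ℝ => phi β α s 1 :=
    (measurable_phi β α).comp (f := fun s : ℝ => (s, (1:ℝ))) (measurable_id.prodMk measurable_const)
  have h2 : Measurable fun s : ℝ => ENNReal.ofReal (s ^ (-η - 1)) :=
    (measurable_id.pow_const (-η - 1)).ennreal_ofReal
  exact h1.mul h2

/-- The normalising constant. -/
noncomputable def cc (β α η : ℝ) : ℝ≥0∞ :=
  ∫⁻ s in Ioi (0:ℝ), phi β α s 1 * ENNReal.ofReal (s ^ (-η - 1))

lemma phi_one_pos {β α : ℝ} (hβ : 0 < β) (hα : 0 < α) {s : ℝ} (hs : 0 < s) :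
    ENNReal.ofReal (min ((1/2) ^ β) (s * (1/2) ^ α)) ≤ phi β α s 1 := by
  refine le_iInf fun n => ?_
  obtain ⟨h0, h1⟩ := qs_mem n
  unfold cost
  rw [mul_one, mul_one]
  rcases le_total (1/2) (qs n) with h | h
  · refine le_add_right (ENNReal.ofReal_le_ofReal ((min_le_left _ _).trans ?_))
    exact Real.rpow_le_rpow (by norm_num) h hβ.le
  · refine le_add_left (ENNReal.ofReal_le_ofReal ((min_le_right _ _).trans ?_))
    gcongr
    linarith

lemma cc_ne_zero {β α : ℝ} (hβ : 0 < β) (hα : 0 < α) (η : ℝ) : cc β α η ≠ 0 := by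
  intro h
  unfold cc at h
  rw [lintegral_eq_zero_iff'] at h
  · rw [Filter.EventuallyEq, ae_restrict_iff' measurableSet_Ioi] at h
    have h2 : ∀ᵐ s : ℝ ∂volume, s ∉ Ioi (0:ℝ) := by
      filter_upwards [h] with s hs hs'
      have h3 := hs hs'
      have hs0 : (0:ℝ) < s := hs'
      have h4 : (0:ℝ≥0∞) < phi β α s 1 := by
        refine lt_of_lt_of_le ?_ (phi_one_pos hβ hα hs0)
        rw [ENNReal.ofReal_pos]
        positivity
      have h5 : (0:ℝ≥0∞) < ENNReal.ofReal (s ^ (-η - 1)) := by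
        rw [ENNReal.ofReal_pos]; positivity
      simp only [Pi.zero_apply, mul_eq_zero] at h3
      rcases h3 with h3 | h3
      · exact h4.ne' h3
      · exact h5.ne' h3
    have h6 : volume (Ioi (0:ℝ)) = 0 := by
      rw [measure_eq_zero_iff_ae_notMem]; exact h2
    simp at h6
  · exact (measurable_integrand β α η).aemeasurable

lemma cc_ne_top {β α η : ℝ} (hβ : 0 < β) (hα : 0 < α) (hη0 : 0 < η) (hη1 : η < 1) :
    cc β α η ≠ ⊤ := by
  have key : cc β α η ≤ ∫⁻ s in Ioi (0:ℝ), ((if s < 1 then ENNReal.ofReal (s ^ ((1 - η) - 1)) else 0)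
      + (if 1 ≤ s then ENNReal.ofReal (s ^ (-η - 1)) else 0)) := by
    unfold cc
    refine setLIntegral_mono' measurableSet_Ioi fun s hs => ?_
    have hs' : (0:ℝ) < s := hs
    rcases lt_or_ge s 1 with h | h
    · rw [if_pos h, if_neg (not_le.2 h), add_zero]
      have h1 : phi β α s 1 ≤ ENNReal.ofReal s := by
        refine (phi_le_cost hβ hα s 1 (u := 0) (by simp)).trans ?_
        simp [cost, Real.zero_rpow hβ.ne']
      calc phi β α s 1 * ENNReal.ofReal (s ^ (-η - 1))
          ≤ ENNReal.ofReal s * ENNReal.ofReal (s ^ (-η - 1)) := by gcongr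
        _ = ENNReal.ofReal (s ^ ((1 - η) - 1)) := by
            rw [← ENNReal.ofReal_mul hs'.le]
            congr 1
            have : s * s ^ (-η - 1) = s ^ (1:ℝ) * s ^ (-η - 1) := by rw [Real.rpow_one]
            rw [this, ← Real.rpow_add hs']; congr 1; ring
    · rw [if_neg (not_lt.2 h), if_pos h, zero_add]
      have h1 : phi β α s 1 ≤ 1 := by
        refine (phi_le_cost hβ hα s 1 (u := 1) (by simp)).trans ?_
        simp [cost, Real.zero_rpow hα.ne']
      calc phi β α s 1 * ENNReal.ofReal (s ^ (-η - 1))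
          ≤ 1 * ENNReal.ofReal (s ^ (-η - 1)) := by gcongr
        _ = _ := one_mul _
  refine ne_top_of_le_ne_top ?_ key
  have hm : Measurable fun s : ℝ => (if s < 1 then ENNReal.ofReal (s ^ ((1 - η) - 1)) else 0) :=
    Measurable.ite measurableSet_Iio (measurable_id.pow_const _).ennreal_ofReal measurable_const
  rw [lintegral_add_left hm]
  refine ENNReal.add_ne_top.2 ⟨?_, ?_⟩
  · have h1 : ∫⁻ s in Ioi (0:ℝ), (if s < 1 then ENNReal.ofReal (s ^ ((1 - η) - 1)) else 0)
      = ∫⁻ s in Ioo 0 1, ENNReal.ofReal (s ^ ((1 - η) - 1)) := by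
      have : (fun t : ℝ => (if t < 1 then ENNReal.ofReal (t ^ ((1 - η) - 1)) else 0))
          = (Iio 1).indicator (fun t => ENNReal.ofReal (t ^ ((1 - η) - 1))) := by
        ext t; simp [Set.indicator]
      rw [this, lintegral_indicator measurableSet_Iio, Measure.restrict_restrict measurableSet_Iio,
        Iio_inter_Ioi]
    rw [h1]
    have h3 : IntegrableOn (fun t : ℝ => t ^ ((1 - η) - 1)) (Ioo 0 1) := by
      have := (intervalIntegral.intervalIntegrable_rpow' (a := 0) (b := 1) (r := (1 - η) - 1)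
        (by linarith))
      rw [intervalIntegrable_iff_integrableOn_Ioc_of_le zero_le_one] at this
      exact this.mono_set Ioo_subset_Ioc_self
    exact h3.lintegral_lt_top.ne
  · have h1 : ∫⁻ s in Ioi (0:ℝ), (if 1 ≤ s then ENNReal.ofReal (s ^ (-η - 1)) else 0)
      = ∫⁻ s in Ici 1, ENNReal.ofReal (s ^ (-η - 1)) := by
      have : (fun t : ℝ => (if 1 ≤ t then ENNReal.ofReal (t ^ (-η - 1)) else 0))
          = (Ici 1).indicator (fun t => ENNReal.ofReal (t ^ (-η - 1))) := by
        ext t; simp [Set.indicator]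
      rw [this, lintegral_indicator measurableSet_Ici, Measure.restrict_restrict measurableSet_Ici]
      congr 2
      ext t
      simp only [mem_inter_iff, mem_Ici, mem_Ioi, and_iff_left_iff_imp]
      intro h
      linarith
    rw [h1, setLIntegral_congr Ioi_ae_eq_Ici.symm]
    have h3 : IntegrableOn (fun t : ℝ => t ^ (-η - 1)) (Ioi 1) :=
      integrableOn_Ioi_rpow_of_lt (by linarith) one_pos
    exact h3.lintegral_lt_top.ne

lemma lintegral_Ioi_scale {a : ℝ} (ha : 0 < a) {F : ℝ → ℝ≥0∞} (hF : Measurable F) :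
    ∫⁻ t in Ioi (0:ℝ), F (a * t) = ENNReal.ofReal (a⁻¹) * ∫⁻ t in Ioi (0:ℝ), F t := by
  have h1 : ∫⁻ t in Ioi (0:ℝ), F (a * t) = ∫⁻ t, (Ioi (0:ℝ)).indicator F (a * t) := by
    rw [← lintegral_indicator measurableSet_Ioi]
    refine lintegral_congr fun t => ?_
    by_cases h : t ∈ Ioi (0:ℝ)
    · have h' : a * t ∈ Ioi (0:ℝ) := mul_pos ha h
      rw [indicator_of_mem h, indicator_of_mem h']
    · have h' : a * t ∉ Ioi (0:ℝ) := by
        simp only [mem_Ioi, not_lt] at h ⊢
        exact mul_nonpos_of_nonneg_of_nonpos ha.le h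
      rw [indicator_of_notMem h, indicator_of_notMem h']
  rw [h1, ← lintegral_indicator measurableSet_Ioi,
    ← lintegral_map (f := (Ioi (0:ℝ)).indicator F) (hF.indicator measurableSet_Ioi)
      (measurable_const_mul a), Real.map_volume_mul_left ha.ne', lintegral_smul_measure,
      abs_of_pos (inv_pos.2 ha)]
  rfl

/-- The integral identity. -/
lemma lintegral_phi {β α η γ : ℝ} (hβ : 0 < β) (hβα : β < α) (hη0 : 0 < η)
    (hγ : γ = β + η * (α - β)) {l : ℝ} (hl : 0 ≤ l) :
    ∫⁻ t in Ioi (0:ℝ), phi β α t l * ENNReal.ofReal (t ^ (-η - 1))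
      = ENNReal.ofReal (l ^ γ) * cc β α η := by
  have hα : 0 < α := hβ.trans hβα
  have hd : 0 < α - β := sub_pos.2 hβα
  rcases hl.eq_or_lt with h0 | h0
  · rw [← h0, Real.zero_rpow (by rw [hγ]; positivity)]
    simp [phi_zero hβ hα]
  · set a : ℝ := l ^ (α - β) with ha
    have hap : 0 < a := by positivity
    set F : ℝ → ℝ≥0∞ := fun s => phi β α s 1 * ENNReal.ofReal (s ^ (-η - 1)) with hF
    have hFm : Measurable F := measurable_integrand β α η
    have h1 : ∫⁻ t in Ioi (0:ℝ), phi β α t l * ENNReal.ofReal (t ^ (-η - 1))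
        = ∫⁻ t in Ioi (0:ℝ), ENNReal.ofReal (l ^ β * a ^ (η + 1)) * F (a * t) := by
      refine setLIntegral_congr_fun measurableSet_Ioi fun t ht => ?_
      have ht' : (0:ℝ) < t := ht
      simp only [hF]
      rw [phi_scale ht'.le h0, mul_comm t, Real.mul_rpow hap.le ht'.le,
        ENNReal.ofReal_mul (by positivity), ENNReal.ofReal_mul (by positivity)]
      have e : ENNReal.ofReal (a ^ (η + 1)) * ENNReal.ofReal (a ^ (-η - 1)) = 1 := by
        rw [← ENNReal.ofReal_mul (by positivity), ← Real.rpow_add hap]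
        simp
      calc ENNReal.ofReal (l ^ β) * phi β α (a * t) 1 * ENNReal.ofReal (t ^ (-η - 1))
          = ENNReal.ofReal (l ^ β) * phi β α (a * t) 1 * ENNReal.ofReal (t ^ (-η - 1)) * 1 := by
            rw [mul_one]
        _ = _ := by rw [← e]; ring
    rw [h1, lintegral_const_mul' _ _ ENNReal.ofReal_ne_top, lintegral_Ioi_scale hap hFm,
      ← mul_assoc, ← ENNReal.ofReal_mul (by positivity)]
    have e2 : l ^ β * a ^ (η + 1) * a⁻¹ = l ^ γ := by
      rw [Real.rpow_add hap, Real.rpow_one, mul_assoc, mul_assoc, mul_inv_cancel₀ hap.ne', mul_one,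
        ha, ← Real.rpow_mul h0.le, ← Real.rpow_add h0, hγ]
      congr 1; ring
    rw [e2]
    rfl

end Pool.Agent.J6H40.LipInterp
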