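import Pool.Agent.J6H40.LipInterp.Lfun

/-!
The main interpolation estimate with constant `1`.
-/

open MeasureTheory Set
open scoped ENNReal NNReal

namespace Pool.Agent.J6H40.LipInterp

/-- Near-optimal measurable splitting of a nonnegative measurable function. -/
lemma exists_split {Ω : Type*} [MeasurableSpace Ω] {β α t : ℝ} (hβ : 0 < β) (hα : 0 < α)
    (ht : 0 < t) {w : Ω → ℝ} (hw : Measurable w) (hw0 : ∀ ω, 0 ≤ w ω) {K : ℝ≥0∞} (hK : 1 < K) :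
    ∃ u : Ω → ℝ, Measurable u ∧ (∀ ω, u ω ∈ Set.Icc (0:ℝ) 1) ∧
      ∀ ω, cost β α t (w ω) (u ω) ≤ K * phi β α t (w ω) := by
  classical
  have hex : ∀ ω, ∃ n : ℕ, cost β α t (w ω) (qs n) ≤ K * phi β α t (w ω) := by
    intro ω
    rcases (hw0 ω).eq_or_lt with h0 | h0
    · refine ⟨0, ?_⟩
      rw [← h0]
      simp [cost, Real.zero_rpow hβ.ne', Real.zero_rpow hα.ne']
    · have hpos : phi β α t (w ω) ≠ 0 := by
        rw [phi_scale ht.le h0]
        refine mul_ne_zero ?_ ?_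
        · simpa using Real.rpow_pos_of_pos h0 β
        · refine (lt_of_lt_of_le ?_ (phi_one_pos hβ hα (mul_pos ht
            (Real.rpow_pos_of_pos h0 _)))).ne'
          rw [ENNReal.ofReal_pos]
          have := Real.rpow_pos_of_pos h0 (α - β)
          positivity
      have hfin : phi β α t (w ω) ≠ ⊤ := by
        refine ne_top_of_le_ne_top ?_ (iInf_le _ 0)
        exact ENNReal.add_ne_top.2 ⟨ENNReal.ofReal_ne_top, ENNReal.ofReal_ne_top⟩
      have hlt : phi β α t (w ω) < K * phi β α t (w ω) := by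
        conv_lhs => rw [← one_mul (phi β α t (w ω))]
        exact (ENNReal.mul_lt_mul_iff_left hpos hfin).2 hK
      obtain ⟨n, hn⟩ := iInf_lt_iff.1 (show (⨅ n : ℕ, cost β α t (w ω) (qs n)) < _ from hlt)
      exact ⟨n, hn.le⟩
  refine ⟨fun ω => qs (Nat.find (hex ω)), ?_, fun ω => qs_mem _, fun ω => Nat.find_spec (hex ω)⟩
  have hm : Measurable fun ω => Nat.find (hex ω) := by
    refine measurable_find hex fun k => ?_
    refine measurableSet_le ?_ ?_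
    · have h1 : Measurable fun ω => ENNReal.ofReal ((qs k * w ω) ^ β) :=
        ((hw.const_mul (qs k)).pow_const β).ennreal_ofReal
      have h2 : Measurable fun ω => ENNReal.ofReal (t * ((1 - qs k) * w ω) ^ α) :=
        (((hw.const_mul (1 - qs k)).pow_const α).const_mul t).ennreal_ofReal
      exact h1.add h2
    · refine Measurable.const_mul ?_ K
      exact (measurable_phi β α).comp (f := fun ω => (t, w ω)) (measurable_const.prodMk hw)
  exact (measurable_from_top (f := qs)).comp hm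

/-- From the inequality of `L`-functionals to the inequality of norms. -/
lemma integral_compare {Ω : Type*} [MeasurableSpace Ω] (μ : Measure Ω) [SFinite μ]
    {β γ α : ℝ} (hβ : 0 < β) (hβγ : β < γ) (hγα : γ < α)
    {g w : Ω → ℝ} (hg : Measurable g) (hw : Measurable w)
    (hg0 : ∀ ω, 0 ≤ g ω) (hw0 : ∀ ω, 0 ≤ w ω)
    (h : ∀ t : ℝ, 0 < t → ∫⁻ ω, phi β α t (g ω) ∂μ ≤ ∫⁻ ω, phi β α t (w ω) ∂μ) :
    ∫⁻ ω, ENNReal.ofReal (g ω ^ γ) ∂μ ≤ ∫⁻ ω, ENNReal.ofReal (w ω ^ γ) ∂μ := by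
  have hβα : β < α := hβγ.trans hγα
  have hα : 0 < α := hβ.trans hβα
  have hd : 0 < α - β := sub_pos.2 hβα
  set η : ℝ := (γ - β) / (α - β) with hη
  have hη0 : 0 < η := div_pos (sub_pos.2 hβγ) hd
  have hη1 : η < 1 := by rw [hη, div_lt_one hd]; linarith
  have hγ : γ = β + η * (α - β) := by rw [hη]; field_simp; ring
  have key : ∀ {f : Ω → ℝ}, Measurable f → (∀ ω, 0 ≤ f ω) →
      ∫⁻ t in Ioi (0:ℝ), (∫⁻ ω, phi β α t (f ω) ∂μ) * ENNReal.ofReal (t ^ (-η - 1))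
      = (∫⁻ ω, ENNReal.ofReal (f ω ^ γ) ∂μ) * cc β α η := by
    intro f hf hf0
    have hm1 : Measurable fun p : ℝ × Ω => phi β α p.1 (f p.2) :=
      (measurable_phi β α).comp (f := fun p : ℝ × Ω => (p.1, f p.2))
        (measurable_fst.prodMk (hf.comp measurable_snd))
    have hm2 : Measurable fun p : ℝ × Ω => ENNReal.ofReal (p.1 ^ (-η - 1)) :=
      (measurable_fst.pow_const (-η - 1)).ennreal_ofReal
    have h1 : ∫⁻ t in Ioi (0:ℝ), (∫⁻ ω, phi β α t (f ω) ∂μ) * ENNReal.ofReal (t ^ (-η - 1))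
        = ∫⁻ t in Ioi (0:ℝ), (∫⁻ ω, phi β α t (f ω) * ENNReal.ofReal (t ^ (-η - 1)) ∂μ) := by
      refine lintegral_congr fun t => ?_
      rw [lintegral_mul_const' _ _ ENNReal.ofReal_ne_top]
    rw [h1, lintegral_lintegral_swap (hm1.mul hm2).aemeasurable]
    have h2 : ∀ ω, ∫⁻ t in Ioi (0:ℝ), phi β α t (f ω) * ENNReal.ofReal (t ^ (-η - 1))
        = ENNReal.ofReal (f ω ^ γ) * cc β α η := fun ω => lintegral_phi hβ hβα hη0 hγ (hf0 ω)
    simp_rw [h2]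
    rw [lintegral_mul_const' _ _ (cc_ne_top hβ hα hη0 hη1)]
  have h3 : (∫⁻ ω, ENNReal.ofReal (g ω ^ γ) ∂μ) * cc β α η ≤
      (∫⁻ ω, ENNReal.ofReal (w ω ^ γ) ∂μ) * cc β α η := by
    rw [← key hg hg0, ← key hw hw0]
    refine setLIntegral_mono' measurableSet_Ioi fun t ht => ?_
    exact mul_le_mul_left (h t ht) _
  rwa [ENNReal.mul_le_mul_iff_left (cc_ne_zero hβ hα η) (cc_ne_top hβ hα hη0 hη1)] at h3

lemma lintegral_of_eLpNorm_le {Ω : Type*} [MeasurableSpace Ω] {μ : Measure Ω} {p : ℝ≥0∞}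
    (hp0 : p ≠ 0) (hp : p ≠ ⊤) {M : ℝ} (hM : 0 < M) {f g : Ω → ℂ}
    (h : eLpNorm f p μ ≤ ENNReal.ofReal M * eLpNorm g p μ) :
    ∫⁻ ω, ENNReal.ofReal ((‖f ω‖ / M) ^ p.toReal) ∂μ ≤
      ∫⁻ ω, ENNReal.ofReal (‖g ω‖ ^ p.toReal) ∂μ := by
  have hpp : 0 < p.toReal := ENNReal.toReal_pos hp0 hp
  have e1 : ∀ (f : Ω → ℂ), ∫⁻ ω, ‖f ω‖ₑ ^ p.toReal ∂μ = ∫⁻ ω, ENNReal.ofReal (‖f ω‖ ^ p.toReal) ∂μ := by
    intro f
    refine lintegral_congr fun ω => ?_
    rw [← ofReal_norm, ENNReal.ofReal_rpow_of_nonneg (norm_nonneg _) hpp.le]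
  rw [eLpNorm_eq_lintegral_rpow_enorm_toReal hp0 hp,
    eLpNorm_eq_lintegral_rpow_enorm_toReal hp0 hp, e1, e1] at h
  have h2 := ENNReal.rpow_le_rpow h hpp.le
  rw [ENNReal.mul_rpow_of_nonneg _ _ hpp.le, ← ENNReal.rpow_mul, ← ENNReal.rpow_mul,
    one_div_mul_cancel hpp.ne', ENNReal.rpow_one, ENNReal.rpow_one,
    ENNReal.ofReal_rpow_of_nonneg hM.le hpp.le] at h2
  have e2 : ∫⁻ ω, ENNReal.ofReal ((‖f ω‖ / M) ^ p.toReal) ∂μ =
      ENNReal.ofReal ((M ^ p.toReal)⁻¹) * ∫⁻ ω, ENNReal.ofReal (‖f ω‖ ^ p.toReal) ∂μ := by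
    rw [← lintegral_const_mul' _ _ ENNReal.ofReal_ne_top]
    refine lintegral_congr fun ω => ?_
    rw [← ENNReal.ofReal_mul (by positivity), Real.div_rpow (norm_nonneg _) hM.le]
    congr 1; rw [div_eq_mul_inv, mul_comm]
  rw [e2]
  calc ENNReal.ofReal ((M ^ p.toReal)⁻¹) * ∫⁻ ω, ENNReal.ofReal (‖f ω‖ ^ p.toReal) ∂μ
      ≤ ENNReal.ofReal ((M ^ p.toReal)⁻¹) * (ENNReal.ofReal (M ^ p.toReal) *
          ∫⁻ ω, ENNReal.ofReal (‖g ω‖ ^ p.toReal) ∂μ) := by gcongr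
    _ = _ := by
        rw [← mul_assoc, ← ENNReal.ofReal_mul (by positivity),
          inv_mul_cancel₀ (by positivity), ENNReal.ofReal_one, one_mul]

lemma le_of_forall_mul {X Y : ℝ≥0∞} (h : ∀ K : ℝ≥0∞, 1 < K → X ≤ K * Y) : X ≤ Y := by
  by_cases hY : Y = ⊤
  · rw [hY]; exact le_top
  have h1 : Filter.Tendsto (fun n : ℕ => (1 + ((n : ℝ≥0∞) + 1)⁻¹) * Y) Filter.atTop
      (nhds ((1 + 0) * Y)) := by
    refine ENNReal.Tendsto.mul_const ?_ (Or.inr hY)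
    refine tendsto_const_nhds.add ?_
    have := ENNReal.tendsto_inv_nat_nhds_zero
    have h2 := (Filter.tendsto_add_atTop_iff_nat 1).2 this
    simpa using h2
  rw [add_zero, one_mul] at h1
  refine ge_of_tendsto' h1 fun n => h _ ?_
  refine ENNReal.lt_add_right ENNReal.one_ne_top ?_
  rw [ne_eq, ENNReal.inv_eq_zero]
  exact ENNReal.add_ne_top.2 ⟨ENNReal.natCast_ne_top n, ENNReal.one_ne_top⟩

/-- The inequality between the `L`-functionals, for two points of `L^β` whose difference is in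
`L^α` together with the points themselves. -/
lemma phi_ineq {Ω : Type*} [MeasurableSpace Ω] {μ : Measure Ω} {β α : ℝ≥0∞}
    (hβ0 : β ≠ 0) (hβ : β ≠ ⊤) (hα0 : α ≠ 0) (hα : α ≠ ⊤) {M : ℝ} (hM : 0 < M)
    (U : Lp ℂ β μ → Lp ℂ β μ)
    (hU0 : ∀ x y : Lp ℂ β μ, eLpNorm (U x - U y : Lp ℂ β μ) β μ ≤
      ENNReal.ofReal M * eLpNorm (x - y : Lp ℂ β μ) β μ)
    (hU1 : ∀ x y : Lp ℂ β μ, MemLp x α μ → MemLp y α μ → eLpNorm (U x - U y : Lp ℂ β μ) α μ ≤
      ENNReal.ofReal M * eLpNorm (x - y : Lp ℂ β μ) α μ)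
    (x y : Lp ℂ β μ) (hx : MemLp x α μ) (hy : MemLp y α μ) {t : ℝ} (ht : 0 < t) :
    ∫⁻ ω, phi β.toReal α.toReal t (‖(U x - U y : Lp ℂ β μ) ω‖ / M) ∂μ ≤
      ∫⁻ ω, phi β.toReal α.toReal t ‖(x - y : Lp ℂ β μ) ω‖ ∂μ := by
  have hβ' : 0 < β.toReal := ENNReal.toReal_pos hβ0 hβ
  have hα' : 0 < α.toReal := ENNReal.toReal_pos hα0 hα
  refine le_of_forall_mul fun K hK => ?_
  set W : Lp ℂ β μ := x - y with hW
  have hWα : MemLp W α μ := by
    refine (hx.sub hy).ae_eq ?_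
    exact (Lp.coeFn_sub x y).symm
  have hWm : Measurable fun ω => ‖W ω‖ := (Lp.stronglyMeasurable W).norm.measurable
  obtain ⟨u, hum, hu01, huc⟩ := exists_split (K := K) hβ' hα' ht hWm (fun ω => norm_nonneg _) hK
  -- the two pieces of `W`
  set a : Ω → ℂ := fun ω => (u ω : ℂ) * W ω with ha
  set b : Ω → ℂ := fun ω => ((1 - u ω : ℝ) : ℂ) * W ω with hb
  have hnu : ∀ ω, ‖(u ω : ℂ)‖ = u ω := fun ω => by
    rw [Complex.norm_real, Real.norm_of_nonneg (hu01 ω).1]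
  have hnu' : ∀ ω, ‖((1 - u ω : ℝ) : ℂ)‖ = 1 - u ω := fun ω => by
    rw [Complex.norm_real, Real.norm_of_nonneg (by linarith [(hu01 ω).2])]
  have hbm : AEStronglyMeasurable b μ := by
    refine AEStronglyMeasurable.mul ?_ (Lp.aestronglyMeasurable W)
    exact (Complex.measurable_ofReal.comp (measurable_const.sub hum)).aestronglyMeasurable
  have hble : ∀ ω, ‖b ω‖ ≤ ‖W ω‖ := fun ω => by
    simp only [hb]
    rw [norm_mul, hnu']
    have := norm_nonneg (W ω)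
    nlinarith [(hu01 ω).1, (hu01 ω).2]
  have hbβ : MemLp b β μ := (Lp.memLp W).mono hbm (Filter.Eventually.of_forall hble)
  have hbα : MemLp b α μ := hWα.mono hbm (Filter.Eventually.of_forall hble)
  set bL : Lp ℂ β μ := hbβ.toLp b with hbL
  set y' : Lp ℂ β μ := y + bL with hy'
  have hy'α : MemLp y' α μ := by
    refine (hy.add hbα).ae_eq ?_
    filter_upwards [Lp.coeFn_add y bL, hbβ.coeFn_toLp] with ω h1 h2
    rw [h1, Pi.add_apply, Pi.add_apply, h2]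
  have ex : (x - y' : Lp ℂ β μ) =ᵐ[μ] a := by
    filter_upwards [Lp.coeFn_add y bL, hbβ.coeFn_toLp, Lp.coeFn_sub x y', Lp.coeFn_sub x y]
      with ω h1 h2 h3 h4
    have h5 : W ω = x ω - y ω := h4
    simp only [ha]
    rw [h3, Pi.sub_apply, h1, Pi.add_apply, h2]
    simp only [hb]
    push_cast
    linear_combination -h5
  have ey : (y' - y : Lp ℂ β μ) =ᵐ[μ] b := by
    have : y' - y = bL := by rw [hy']; abel
    rw [this]; exact hbβ.coeFn_toLp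
  have hA := hU0 x y'
  rw [eLpNorm_congr_ae ex] at hA
  have hB := hU1 y' y hy'α hy
  rw [eLpNorm_congr_ae ey] at hB
  have hA' := lintegral_of_eLpNorm_le hβ0 hβ hM hA
  have hB' := lintegral_of_eLpNorm_le hα0 hα hM hB
  set A : Lp ℂ β μ := U x - U y' with hAdef
  set B : Lp ℂ β μ := U y' - U y with hBdef
  have hAB : (U x - U y : Lp ℂ β μ) = A + B := by rw [hAdef, hBdef]; abel
  have hmA : Measurable fun ω => ENNReal.ofReal ((‖A ω‖ / M) ^ β.toReal) :=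
    ((((Lp.stronglyMeasurable A).norm.measurable).div_const M).pow_const _).ennreal_ofReal
  have hma : AEMeasurable (fun ω => ENNReal.ofReal (‖a ω‖ ^ β.toReal)) μ := by
    have : AEStronglyMeasurable a μ := by
      refine AEStronglyMeasurable.mul ?_ (Lp.aestronglyMeasurable W)
      exact (Complex.measurable_ofReal.comp hum).aestronglyMeasurable
    exact (this.norm.aemeasurable.pow_const _).ennreal_ofReal
  calc ∫⁻ ω, phi β.toReal α.toReal t (‖(U x - U y : Lp ℂ β μ) ω‖ / M) ∂μ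
      ≤ ∫⁻ ω, (ENNReal.ofReal ((‖A ω‖ / M) ^ β.toReal) +
          ENNReal.ofReal (t * (‖B ω‖ / M) ^ α.toReal)) ∂μ := by
        refine lintegral_mono_ae ?_
        filter_upwards [Lp.coeFn_add A B] with ω h1
        refine phi_le_of_add hβ' hα' ht.le (by positivity) (by positivity) (by positivity) ?_
        rw [hAB, h1, Pi.add_apply, ← add_div]
        gcongr
        exact norm_add_le _ _
    _ = (∫⁻ ω, ENNReal.ofReal ((‖A ω‖ / M) ^ β.toReal) ∂μ) +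
          ENNReal.ofReal t * ∫⁻ ω, ENNReal.ofReal ((‖B ω‖ / M) ^ α.toReal) ∂μ := by
        rw [lintegral_add_left hmA, ← lintegral_const_mul' _ _ ENNReal.ofReal_ne_top]
        congr 1
        refine lintegral_congr fun ω => ?_
        rw [ENNReal.ofReal_mul ht.le]
    _ ≤ (∫⁻ ω, ENNReal.ofReal (‖a ω‖ ^ β.toReal) ∂μ) +
          ENNReal.ofReal t * ∫⁻ ω, ENNReal.ofReal (‖b ω‖ ^ α.toReal) ∂μ := by
        gcongr
    _ = ∫⁻ ω, cost β.toReal α.toReal t ‖W ω‖ (u ω) ∂μ := by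
        rw [← lintegral_const_mul' _ _ ENNReal.ofReal_ne_top, ← lintegral_add_left' hma]
        refine lintegral_congr fun ω => ?_
        unfold cost
        rw [ENNReal.ofReal_mul ht.le]
        simp only [ha, hb]
        rw [norm_mul, norm_mul, hnu, hnu']
    _ ≤ ∫⁻ ω, K * phi β.toReal α.toReal t ‖W ω‖ ∂μ := lintegral_mono fun ω => huc ω
    _ = K * ∫⁻ ω, phi β.toReal α.toReal t ‖W ω‖ ∂μ := by
        refine lintegral_const_mul K ?_
        exact (measurable_phi _ _).comp (f := fun ω => (t, ‖W ω‖)) (measurable_const.prodMk hWm)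

/-- The estimate with constant `1` for points of `L^α`. -/
lemma estimate_core {Ω : Type*} [MeasurableSpace Ω] {μ : Measure Ω} [SFinite μ] {β γ α : ℝ≥0∞}
    (hβ0 : 0 < β) (hβγ : β < γ) (hγα : γ < α) (hα : α < ⊤) {M : ℝ} (hM : 0 < M)
    (U : Lp ℂ β μ → Lp ℂ β μ)
    (hU0 : ∀ x y : Lp ℂ β μ, eLpNorm (U x - U y : Lp ℂ β μ) β μ ≤
      ENNReal.ofReal M * eLpNorm (x - y : Lp ℂ β μ) β μ)
    (hU1 : ∀ x y : Lp ℂ β μ, MemLp x α μ → MemLp y α μ → eLpNorm (U x - U y : Lp ℂ β μ) α μ ≤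
      ENNReal.ofReal M * eLpNorm (x - y : Lp ℂ β μ) α μ)
    (x y : Lp ℂ β μ) (hx : MemLp x α μ) (hy : MemLp y α μ) :
    eLpNorm (U x - U y : Lp ℂ β μ) γ μ ≤ ENNReal.ofReal M * eLpNorm (x - y : Lp ℂ β μ) γ μ := by
  have hγ : γ < ⊤ := hγα.trans hα
  have hβ : β < ⊤ := hβγ.trans hγ
  have hγ0 : 0 < γ := hβ0.trans hβγ
  have hα0 : 0 < α := hγ0.trans hγα
  have rβ : 0 < β.toReal := ENNReal.toReal_pos hβ0.ne' hβ.ne
  have rγ : 0 < γ.toReal := ENNReal.toReal_pos hγ0.ne' hγ.ne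
  have r1 : β.toReal < γ.toReal := (ENNReal.toReal_lt_toReal hβ.ne hγ.ne).2 hβγ
  have r2 : γ.toReal < α.toReal := (ENNReal.toReal_lt_toReal hγ.ne hα.ne).2 hγα
  have key := integral_compare μ rβ r1 r2
    (g := fun ω => ‖(U x - U y : Lp ℂ β μ) ω‖ / M) (w := fun ω => ‖(x - y : Lp ℂ β μ) ω‖)
    ((Lp.stronglyMeasurable _).norm.measurable.div_const M)
    ((Lp.stronglyMeasurable _).norm.measurable)
    (fun ω => by positivity) (fun ω => by positivity)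
    (fun t ht => phi_ineq hβ0.ne' hβ.ne hα0.ne' hα.ne hM U hU0 hU1 x y hx hy ht)
  have e1 : ∀ (f : Ω → ℂ), ∫⁻ ω, ‖f ω‖ₑ ^ γ.toReal ∂μ =
      ∫⁻ ω, ENNReal.ofReal (‖f ω‖ ^ γ.toReal) ∂μ := by
    intro f
    refine lintegral_congr fun ω => ?_
    rw [← ofReal_norm, ENNReal.ofReal_rpow_of_nonneg (norm_nonneg _) rγ.le]
  set G : Lp ℂ β μ := U x - U y
  have e2 : ∫⁻ ω, ENNReal.ofReal (‖G ω‖ ^ γ.toReal) ∂μ =
      ENNReal.ofReal (M ^ γ.toReal) * ∫⁻ ω, ENNReal.ofReal ((‖G ω‖ / M) ^ γ.toReal) ∂μ := by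
    rw [← lintegral_const_mul' _ _ ENNReal.ofReal_ne_top]
    refine lintegral_congr fun ω => ?_
    rw [← ENNReal.ofReal_mul (by positivity), Real.div_rpow (norm_nonneg _) hM.le]
    congr 1
    field_simp
  rw [eLpNorm_eq_lintegral_rpow_enorm_toReal hγ0.ne' hγ.ne,
    eLpNorm_eq_lintegral_rpow_enorm_toReal hγ0.ne' hγ.ne, e1, e1, e2]
  have h3 : ENNReal.ofReal M = (ENNReal.ofReal (M ^ γ.toReal)) ^ (1 / γ.toReal) := by
    rw [ENNReal.ofReal_rpow_of_nonneg (by positivity) (by positivity), ← Real.rpow_mul hM.le,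
      mul_one_div_cancel rγ.ne', Real.rpow_one]
  rw [h3, ← ENNReal.mul_rpow_of_nonneg _ _ (by positivity)]
  gcongr

/-- Density of `L^α` in `L^γ` (finite measure), realised inside `L^β`. -/
lemma exists_approx {Ω : Type*} [MeasurableSpace Ω] {μ : Measure Ω} [IsFiniteMeasure μ]
    {β γ : ℝ≥0∞} (hγ : γ < ⊤) (x : Lp ℂ β μ) (hx : MemLp x γ μ) {ε : ℝ≥0∞} (hε : ε ≠ 0) :
    ∃ z : Lp ℂ β μ, (∀ p : ℝ≥0∞, MemLp z p μ) ∧ eLpNorm (x - z : Lp ℂ β μ) γ μ < ε := by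
  obtain ⟨g, hg1, -⟩ := hx.exists_simpleFunc_eLpNorm_sub_lt hγ.ne hε
  have hgβ : MemLp g β μ := g.memLp_of_isFiniteMeasure β μ
  refine ⟨hgβ.toLp g, fun p => ?_, ?_⟩
  · exact (g.memLp_of_isFiniteMeasure p μ).ae_eq hgβ.coeFn_toLp.symm
  · refine lt_of_le_of_lt (le_of_eq (eLpNorm_congr_ae ?_)) hg1
    filter_upwards [Lp.coeFn_sub x (hgβ.toLp g), hgβ.coeFn_toLp] with ω h1 h2
    rw [h1, Pi.sub_apply, Pi.sub_apply, h2]

/-- The estimate with constant `1` for points of `L^γ`. -/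
theorem estimate_full {Ω : Type*} [MeasurableSpace Ω] {μ : Measure Ω} [IsFiniteMeasure μ]
    {β γ α : ℝ≥0∞}
    (hβ1 : 1 ≤ β) (hβγ : β < γ) (hγα : γ < α) (hα : α < ⊤) {M : ℝ} (hM : 0 < M)
    (U : Lp ℂ β μ → Lp ℂ β μ)
    (hU0 : ∀ x y : Lp ℂ β μ, eLpNorm (U x - U y : Lp ℂ β μ) β μ ≤
      ENNReal.ofReal M * eLpNorm (x - y : Lp ℂ β μ) β μ)
    (hU1 : ∀ x y : Lp ℂ β μ, MemLp x α μ → MemLp y α μ → eLpNorm (U x - U y : Lp ℂ β μ) α μ ≤
      ENNReal.ofReal M * eLpNorm (x - y : Lp ℂ β μ) α μ)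
    (x y : Lp ℂ β μ) (hx : MemLp x γ μ) (hy : MemLp y γ μ) :
    eLpNorm (U x - U y : Lp ℂ β μ) γ μ ≤ ENNReal.ofReal M * eLpNorm (x - y : Lp ℂ β μ) γ μ := by
  have hγ : γ < ⊤ := hγα.trans hα
  have hβ0 : 0 < β := lt_of_lt_of_le one_pos hβ1
  have hγ1 : 1 ≤ γ := hβ1.trans hβγ.le
  have hε : ∀ n : ℕ, ((n : ℝ≥0∞) + 1)⁻¹ ≠ 0 := fun n => by
    rw [ne_eq, ENNReal.inv_eq_zero]
    exact ENNReal.add_ne_top.2 ⟨ENNReal.natCast_ne_top n, ENNReal.one_ne_top⟩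
  choose X hX1 hX2 using fun n : ℕ => exists_approx (β := β) hγ x hx (hε n)
  choose Y hY1 hY2 using fun n : ℕ => exists_approx (β := β) hγ y hy (hε n)
  have hlim0 : Filter.Tendsto (fun n : ℕ => ((n : ℝ≥0∞) + 1)⁻¹) Filter.atTop (nhds 0) := by
    have := ENNReal.tendsto_inv_nat_nhds_zero
    have h2 := (Filter.tendsto_add_atTop_iff_nat 1).2 this
    simpa using h2
  -- comparison of `L^β` and `L^γ` seminorms
  set κ : ℝ≥0∞ := μ Set.univ ^ (1 / β.toReal - 1 / γ.toReal) with hκ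
  have hκt : κ ≠ ⊤ := by
    refine ENNReal.rpow_ne_top_of_nonneg ?_ (measure_ne_top μ _)
    rw [sub_nonneg]
    refine one_div_le_one_div_of_le (ENNReal.toReal_pos hβ0.ne' (hβγ.trans hγ).ne) ?_
    exact (ENNReal.toReal_le_toReal (hβγ.trans hγ).ne hγ.ne).2 hβγ.le
  have hcmp : ∀ f : Lp ℂ β μ, eLpNorm f β μ ≤ eLpNorm f γ μ * κ := fun f =>
    eLpNorm_le_eLpNorm_mul_rpow_measure_univ hβγ.le (Lp.aestronglyMeasurable f)
  have hconv : ∀ (x : Lp ℂ β μ) (X : ℕ → Lp ℂ β μ),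
      (∀ n, eLpNorm (x - X n : Lp ℂ β μ) γ μ < ((n : ℝ≥0∞) + 1)⁻¹) →
      Filter.Tendsto (fun n => eLpNorm ((U (X n) : Ω → ℂ) - (U x : Ω → ℂ)) β μ) Filter.atTop
        (nhds 0) := by
    intro x X hX
    have h1 : Filter.Tendsto (fun n : ℕ => ENNReal.ofReal M * ((((n : ℝ≥0∞) + 1)⁻¹) * κ))
        Filter.atTop (nhds (ENNReal.ofReal M * (0 * κ))) :=
      ENNReal.Tendsto.const_mul (ENNReal.Tendsto.mul_const hlim0 (Or.inr hκt))
        (Or.inr ENNReal.ofReal_ne_top)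
    rw [zero_mul, mul_zero] at h1
    refine tendsto_of_tendsto_of_tendsto_of_le_of_le tendsto_const_nhds h1 (fun n => zero_le)
      (fun n => ?_)
    calc eLpNorm ((U (X n) : Ω → ℂ) - (U x : Ω → ℂ)) β μ
        = eLpNorm (U x - U (X n) : Lp ℂ β μ) β μ := by
          rw [eLpNorm_sub_comm]
          exact (eLpNorm_congr_ae (Lp.coeFn_sub _ _)).symm
      _ ≤ ENNReal.ofReal M * eLpNorm (x - X n : Lp ℂ β μ) β μ := hU0 _ _
      _ ≤ ENNReal.ofReal M * ((((n : ℝ≥0∞) + 1)⁻¹) * κ) := by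
          gcongr
          refine (hcmp _).trans ?_
          gcongr
          exact (hX n).le
  have hd : Filter.Tendsto (fun n => eLpNorm (((U (X n) : Ω → ℂ) - (U (Y n) : Ω → ℂ)) -
      ((U x : Ω → ℂ) - (U y : Ω → ℂ))) β μ) Filter.atTop (nhds 0) := by
    have h1 := (hconv x X hX2).add (hconv y Y hY2)
    rw [add_zero] at h1
    refine tendsto_of_tendsto_of_tendsto_of_le_of_le tendsto_const_nhds h1 (fun n => zero_le)
      (fun n => ?_)
    have e : ((U (X n) : Ω → ℂ) - (U (Y n) : Ω → ℂ)) - ((U x : Ω → ℂ) - (U y : Ω → ℂ)) =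
      ((U (X n) : Ω → ℂ) - (U x : Ω → ℂ)) - ((U (Y n) : Ω → ℂ) - (U y : Ω → ℂ)) := by
      ring
    show eLpNorm (((U (X n) : Ω → ℂ) - (U (Y n) : Ω → ℂ)) -
      ((U x : Ω → ℂ) - (U y : Ω → ℂ))) β μ ≤ _
    rw [e]
    exact eLpNorm_sub_le ((Lp.aestronglyMeasurable _).sub (Lp.aestronglyMeasurable _))
      ((Lp.aestronglyMeasurable _).sub (Lp.aestronglyMeasurable _)) hβ1
  have hmeas := tendstoInMeasure_of_tendsto_eLpNorm hβ0.ne'
    (fun n => (Lp.aestronglyMeasurable (U (X n))).sub (Lp.aestronglyMeasurable (U (Y n))))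
    ((Lp.aestronglyMeasurable (U x)).sub (Lp.aestronglyMeasurable (U y))) hd
  obtain ⟨ns, hns, hae⟩ := hmeas.exists_seq_tendsto_ae
  have hfatou := Lp.eLpNorm_lim_le_liminf_eLpNorm (p := γ)
    (f := fun i => ((U (X (ns i)) : Ω → ℂ) - (U (Y (ns i)) : Ω → ℂ)))
    (fun i => (Lp.aestronglyMeasurable (U (X (ns i)))).sub
      (Lp.aestronglyMeasurable (U (Y (ns i))))) _ hae
  have hbound : ∀ n, eLpNorm ((U (X n) : Ω → ℂ) - (U (Y n) : Ω → ℂ)) γ μ ≤
      ENNReal.ofReal M * (eLpNorm (x - y : Lp ℂ β μ) γ μ + 2 * ((n : ℝ≥0∞) + 1)⁻¹) := by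
    intro n
    calc eLpNorm ((U (X n) : Ω → ℂ) - (U (Y n) : Ω → ℂ)) γ μ
        = eLpNorm (U (X n) - U (Y n) : Lp ℂ β μ) γ μ :=
          (eLpNorm_congr_ae (Lp.coeFn_sub _ _)).symm
      _ ≤ ENNReal.ofReal M * eLpNorm (X n - Y n : Lp ℂ β μ) γ μ :=
          estimate_core hβ0 hβγ hγα hα hM U hU0 hU1 _ _ (hX1 n α) (hY1 n α)
      _ ≤ _ := by
          gcongr
          have e : (X n - Y n : Lp ℂ β μ) = (x - y) - ((x - X n) - (y - Y n)) := by abel
          calc eLpNorm (X n - Y n : Lp ℂ β μ) γ μ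
              = eLpNorm ((x - y : Lp ℂ β μ) - (((x - X n : Lp ℂ β μ) : Ω → ℂ) -
                  ((y - Y n : Lp ℂ β μ) : Ω → ℂ)) : Ω → ℂ) γ μ := by
                refine eLpNorm_congr_ae ?_
                rw [e]
                filter_upwards [Lp.coeFn_sub (x - y) ((x - X n) - (y - Y n)),
                  Lp.coeFn_sub (x - X n) (y - Y n)] with ω h1 h2
                rw [h1, Pi.sub_apply, h2, Pi.sub_apply, Pi.sub_apply, Pi.sub_apply]
            _ ≤ eLpNorm (x - y : Lp ℂ β μ) γ μ + eLpNorm (((x - X n : Lp ℂ β μ) : Ω → ℂ) -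
                  ((y - Y n : Lp ℂ β μ) : Ω → ℂ)) γ μ :=
                eLpNorm_sub_le (Lp.aestronglyMeasurable _)
                  ((Lp.aestronglyMeasurable _).sub (Lp.aestronglyMeasurable _)) hγ1
            _ ≤ eLpNorm (x - y : Lp ℂ β μ) γ μ + (eLpNorm (x - X n : Lp ℂ β μ) γ μ +
                  eLpNorm (y - Y n : Lp ℂ β μ) γ μ) := by
                gcongr
                exact eLpNorm_sub_le (Lp.aestronglyMeasurable _) (Lp.aestronglyMeasurable _) hγ1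
            _ ≤ eLpNorm (x - y : Lp ℂ β μ) γ μ + 2 * ((n : ℝ≥0∞) + 1)⁻¹ := by
                rw [two_mul]
                gcongr
                · exact (hX2 n).le
                · exact (hY2 n).le
  have hlimR : Filter.Tendsto (fun n : ℕ => ENNReal.ofReal M *
      (eLpNorm (x - y : Lp ℂ β μ) γ μ + 2 * ((n : ℝ≥0∞) + 1)⁻¹)) Filter.atTop
      (nhds (ENNReal.ofReal M * (eLpNorm (x - y : Lp ℂ β μ) γ μ + 2 * 0))) := by
    refine ENNReal.Tendsto.const_mul (tendsto_const_nhds.add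
      (ENNReal.Tendsto.const_mul hlim0 (Or.inr (by simp)))) (Or.inr ENNReal.ofReal_ne_top)
  rw [mul_zero, add_zero] at hlimR
  calc eLpNorm (U x - U y : Lp ℂ β μ) γ μ
      = eLpNorm ((U x : Ω → ℂ) - (U y : Ω → ℂ)) γ μ := eLpNorm_congr_ae (Lp.coeFn_sub _ _)
    _ ≤ Filter.liminf (fun i => eLpNorm ((U (X (ns i)) : Ω → ℂ) - (U (Y (ns i)) : Ω → ℂ)) γ μ)
          Filter.atTop := hfatou
    _ ≤ Filter.liminf (fun i => ENNReal.ofReal M *
          (eLpNorm (x - y : Lp ℂ β μ) γ μ + 2 * (((ns i : ℕ) : ℝ≥0∞) + 1)⁻¹)) Filter.atTop :=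
        Filter.liminf_le_liminf (Filter.Eventually.of_forall fun i => hbound (ns i))
    _ = ENNReal.ofReal M * eLpNorm (x - y : Lp ℂ β μ) γ μ :=
        (hlimR.comp hns.tendsto_atTop).liminf_eq

end Pool.Agent.J6H40.LipInterp
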